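import Pool.Agent.Lib.helper24.GKKVarga

set_option autoImplicit false

namespace Pool.Agent.Results.MP_0e199b_al.Three

open Pool.Agent.Lib.helper24.GKK

/-- The largest `N` such that every tau-matrix of order at most `N` satisfies (V) is 3. -/
theorem result : IsGreatest
    {N : ℕ | ∀ n : ℕ, n ≤ N → ∀ A : Matrix (Fin n) (Fin n) ℂ, IsTau A → VargaIneq A} 3 := by
  refine ⟨fun n hn A h => varga_le_three hn A h.1, fun N hN => ?_⟩
  by_contra hlt
  exact exV_not_varga (hN 4 (by omega) _ exV_isTau)

end Pool.Agent.Results.MP_0e199b_al.Three
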